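import Mathlib
import Pool.Agent.W313.HB.Stm3
import Pool.Agent.W335.BMX.Odd
import Pool.Agent.W613.HB.T1

/-!
# Rational points on almost all twists: two parameters, weak approximation

Part T2W of project HB.
-/

set_option autoImplicit false
set_option linter.all false

namespace Pool.Agent.W125.HB.T2W

open Finset Polynomial
open Pool.Agent.W313.BMX (Splits)
open Pool.Agent.W313.HB
open Pool.Agent.W613.HBT (lineP_mul lineP_eval lineP_comp sep_of_comb aeval_cast crt card_mult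
  line_facts)

variable {n : ℕ}

theorem splits_sq {K : Type} [Field K] {x y : K} (c e : K) (hc : c ≠ 0) (he : e ≠ 0)
    (h : Splits x y) : Splits (c ^ 2 * x) (e ^ 2 * y) := by
  obtain ⟨u, v, w, h0, h1⟩ := h
  refine ⟨u / c, v / e, w, ?_, ?_⟩
  · rcases h0 with h | h | h
    · exact Or.inl (div_ne_zero h hc)
    · exact Or.inr (Or.inl (div_ne_zero h he))
    · exact Or.inr (Or.inr h)
  · rw [h1]
    field_simp

theorem aeval_smul {K : Type} [Field K] {D : ℕ} {G : MvPolynomial (Fin (n + 1)) ℤ}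
    (hG : G.IsHomogeneous D) (c : K) (x : Fin (n + 1) → K) :
    MvPolynomial.aeval (fun i => c * x i) G = c ^ D * MvPolynomial.aeval x G := by
  rw [MvPolynomial.aeval_def, MvPolynomial.aeval_def, MvPolynomial.eval₂_eq,
    MvPolynomial.eval₂_eq, Finset.mul_sum]
  refine Finset.sum_congr rfl fun d hd => ?_
  have hD := hG.degree_eq_sum_deg_support hd
  simp only [mul_pow]
  rw [Finset.prod_mul_distrib, Finset.prod_pow_eq_pow_sum, ← hD]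
  ring

/-- a value congruent to one with the symbol of `b` -/
theorem sq_of_jac (q : ℕ) [hq : Fact q.Prime] (hq2 : q ≠ 2) (G : ℤ[X]) (b : ℕ) (s t : ℤ)
    (hst : (q : ℤ) ∣ t - s) (hb : ¬ q ∣ b) (h1 : jacobiSym (G.eval s) q = jacobiSym b q) :
    IsSquare ((((b : ℤ) * G.eval t : ℤ)) : ℚ_[q]) := by
  have hb' : ¬ (q : ℤ) ∣ (b : ℤ) := fun h => hb (by exact_mod_cast h)
  have hmod : (q : ℤ) ∣ G.eval t - G.eval s := hst.trans (sub_dvd_eval_sub t s _)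
  have hmod' : G.eval t % (q : ℤ) = G.eval s % (q : ℤ) := (Int.modEq_iff_dvd.2 hmod).symm
  have h3 : legendreSym q (b : ℤ) = legendreSym q (G.eval t) := by
    rw [jacobiSym.legendreSym.to_jacobiSym, jacobiSym.legendreSym.to_jacobiSym,
      jacobiSym.mod_left' hmod', h1]
  have hm : ¬ (q : ℤ) ∣ G.eval t := by
    intro hdv
    have h4 : legendreSym q (G.eval t) = 0 := by
      rw [legendreSym.eq_zero_iff, ZMod.intCast_zmod_eq_zero_iff_dvd]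
      exact hdv
    rw [← h3, legendreSym.eq_zero_iff, ZMod.intCast_zmod_eq_zero_iff_dvd] at h4
    exact hb' h4
  exact Pool.Agent.W335.BMX.odd1 q hq2 (b : ℤ) (G.eval t) hb' hm h3

theorem splits_right {K : Type} [Field K] {x y : K} (h : IsSquare y) : Splits x y := by
  obtain ⟨u, hu⟩ := h
  exact ⟨0, 1, u, Or.inr (Or.inl one_ne_zero), by rw [hu]; ring⟩

theorem splits_left {K : Type} [Field K] {x y : K} (h : IsSquare x) : Splits x y := by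
  obtain ⟨u, hu⟩ := h
  exact ⟨1, 0, u, Or.inl one_ne_zero, by rw [hu]; ring⟩

theorem splits_odd (q : ℕ) [hq : Fact q.Prime] (hq2 : q ≠ 2) (P1 P2 P3 : ℤ[X]) (a b : ℕ)
    (hab : a.Coprime b) (s t : ℤ) (hst : (q : ℤ) ∣ t - s)
    (h1 : q ∣ a → jacobiSym ((P2 * P3).eval s) q = jacobiSym b q)
    (h2 : q ∣ b → jacobiSym ((P1 * P3).eval s) q = jacobiSym a q)
    (h3 : ¬ q ∣ a → ¬ q ∣ b → ¬ (q : ℤ) ∣ (P1 * P2 * P3).eval s) :
    Splits ((((a : ℤ) * (P1 * P3).eval t : ℤ)) : ℚ_[q])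
      ((((b : ℤ) * (P2 * P3).eval t : ℤ)) : ℚ_[q]) := by
  by_cases ha : q ∣ a
  · have hb : ¬ q ∣ b := fun hb => by
      have := Nat.dvd_gcd ha hb
      rw [hab] at this
      exact hq.out.one_lt.ne' (Nat.dvd_one.1 this)
    exact splits_right (sq_of_jac q hq2 (P2 * P3) b s t hst hb (h1 ha))
  by_cases hb : q ∣ b
  · exact splits_left (sq_of_jac q hq2 (P1 * P3) a s t hst ha (h2 hb))
  have h := h3 ha hb
  have hmod : (q : ℤ) ∣ (P1 * P2 * P3).eval t - (P1 * P2 * P3).eval s :=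
    hst.trans (sub_dvd_eval_sub t s _)
  have h4 : ¬ (q : ℤ) ∣ (P1 * P2 * P3).eval t := fun h5 =>
    h ((dvd_iff_dvd_of_dvd_sub hmod).1 h5)
  rw [eval_mul, eval_mul] at h4
  have ha' : ¬ (q : ℤ) ∣ (a : ℤ) := fun h5 => ha (by exact_mod_cast h5)
  have hb' : ¬ (q : ℤ) ∣ (b : ℤ) := fun h5 => hb (by exact_mod_cast h5)
  refine Pool.Agent.W335.BMX.odd2 q hq2 _ _ ?_ ?_
  · intro h5
    rcases Int.Prime.dvd_mul' hq.out h5 with h6 | h6
    · exact ha' h6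
    · apply h4
      rw [eval_mul] at h6
      refine h6.trans ⟨P2.eval t, by ring⟩
  · intro h5
    rcases Int.Prime.dvd_mul' hq.out h5 with h6 | h6
    · exact hb' h6
    · apply h4
      rw [eval_mul] at h6
      refine h6.trans ⟨P1.eval t, by ring⟩

theorem jac_pm (q : ℕ) (hq : q.Prime) (b : ℕ) (hb : ¬ q ∣ b) :
    jacobiSym b q = 1 ∨ jacobiSym b q = -1 := by
  apply jacobiSym.eq_one_or_neg_one
  rw [Int.gcd_natCast_natCast]
  exact ((Nat.Prime.coprime_iff_not_dvd hq).2 hb).symm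

theorem exists_s {D z2 : ℕ} (hz2 : ∀ p : ℕ, p.Prime → z2 ≤ p → ∀ F : ℤ[X],
    F.natDegree ≤ D → 1 ≤ (F.map (Int.castRingHom (ZMod p))).natDegree →
    (F.map (Int.castRingHom (ZMod p))).Separable → ∀ σ : ℤ, (σ = 1 ∨ σ = -1) →
      ∃ x : ℕ, x < p ∧ jacobiSym (F.eval (x : ℤ)) p = σ)
    (q : ℕ) (hq : q.Prime) (hz : z2 ≤ q) (hDq : D < q) (P1 P2 P3 : ℤ[X]) {d1 d2 d3 : ℕ}
    (hd1 : P1.natDegree = d1) (hd2 : P2.natDegree = d2) (hd3 : P3.natDegree = d3)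
    (h3 : 1 ≤ d3) (hD : d1 + d2 + d3 = D)
    (hl1 : ¬ (q : ℤ) ∣ P1.leadingCoeff) (hl2 : ¬ (q : ℤ) ∣ P2.leadingCoeff)
    (hl3 : ¬ (q : ℤ) ∣ P3.leadingCoeff) (a b : ℕ) (hab : a.Coprime b)
    (hsep : (q ∣ a ∨ q ∣ b) → ((P1 * P2 * P3).map (Int.castRingHom (ZMod q))).Separable) :
    ∃ s : ℕ, (q ∣ a → jacobiSym ((P2 * P3).eval (s : ℤ)) q = jacobiSym b q) ∧
      (q ∣ b → jacobiSym ((P1 * P3).eval (s : ℤ)) q = jacobiSym a q) ∧
      (¬ q ∣ a → ¬ q ∣ b → ¬ (q : ℤ) ∣ (P1 * P2 * P3).eval (s : ℤ)) := by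
  haveI := Fact.mk hq
  have hP1 : P1 ≠ 0 := by
    rintro rfl
    exact hl1 (by simp)
  have hP2 : P2 ≠ 0 := by
    rintro rfl
    exact hl2 (by simp)
  have hP3 : P3 ≠ 0 := by
    rintro rfl
    exact hl3 (by simp)
  have key : ∀ P : ℤ[X], P ≠ 0 → P.natDegree ≤ D - d3 → ¬ (q : ℤ) ∣ P.leadingCoeff →
      (P * P3).natDegree ≤ D ∧
      1 ≤ ((P * P3).map (Int.castRingHom (ZMod q))).natDegree := by
    intro P hP hPd hPl
    have hlc' : (Int.castRingHom (ZMod q)) (P * P3).leadingCoeff ≠ 0 := by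
      rw [eq_intCast, Ne, ZMod.intCast_zmod_eq_zero_iff_dvd, leadingCoeff_mul]
      intro h
      rcases Int.Prime.dvd_mul' hq h with h | h
      · exact hPl h
      · exact hl3 h
    rw [natDegree_map_of_leadingCoeff_ne_zero _ hlc', natDegree_mul hP hP3, hd3]
    omega
  by_cases ha : q ∣ a
  · have hb : ¬ q ∣ b := fun hb => by
      have := Nat.dvd_gcd ha hb
      rw [hab] at this
      exact hq.one_lt.ne' (Nat.dvd_one.1 this)
    have hs := hsep (Or.inl ha)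
    obtain ⟨k1, k2⟩ := key P2 hP2 (by omega) hl2
    obtain ⟨s, -, hs1⟩ := hz2 q hq hz (P2 * P3) k1 k2 (by
      have e : P1 * P2 * P3 = P1 * (P2 * P3) := by ring
      rw [e, Polynomial.map_mul] at hs
      exact Separable.of_mul_right hs) _ (jac_pm q hq b hb)
    exact ⟨s, fun _ => hs1, fun h => absurd h hb, fun h => absurd ha h⟩
  by_cases hb : q ∣ b
  · have hs := hsep (Or.inr hb)
    obtain ⟨k1, k2⟩ := key P1 hP1 (by omega) hl1
    obtain ⟨s, -, hs1⟩ := hz2 q hq hz (P1 * P3) k1 k2 (by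
      have e : P1 * P2 * P3 = P2 * (P1 * P3) := by ring
      rw [e, Polynomial.map_mul] at hs
      exact Separable.of_mul_right hs) _ (jac_pm q hq a ha)
    exact ⟨s, fun h => absurd h ha, fun _ => hs1, fun _ h => absurd hb h⟩
  · have h1 : ¬ q ∣ 1 := fun h => hq.one_lt.ne' (Nat.dvd_one.1 h)
    obtain ⟨s, -, hs⟩ := Pool.Agent.W613.HBT.exists_s hz2 q hq hz hDq (P1 * P2 * P3)
      (by rw [natDegree_mul (mul_ne_zero hP1 hP2) hP3, natDegree_mul hP1 hP2, hd1, hd2, hd3, hD])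
      (by omega) (by
        rw [leadingCoeff_mul, leadingCoeff_mul]
        intro h
        rcases Int.Prime.dvd_mul' hq h with h | h
        · rcases Int.Prime.dvd_mul' hq h with h | h
          · exact hl1 h
          · exact hl2 h
        · exact hl3 h) 1 (fun h => absurd h h1)
    exact ⟨s, fun h => absurd h ha, fun h => absurd h hb, fun _ _ => hs h1⟩

/-- All the points of the residue class `x` are local points at the primes up to `z`. -/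
def Typ (G1 G2 : MvPolynomial (Fin (n + 1)) ℤ)
    (Ω : ∀ p : Nat.Primes, Set (Fin (n + 1) → ℚ_[(p : ℕ)])) (K k : Nat.Primes → ℕ) (z : ℕ)
    (a b : ℕ) (x : Fin (n + 1) → ℕ) : Prop :=
  ∀ p : Nat.Primes, (p : ℕ) ≤ z → ∀ y : Fin (n + 1) → ℤ,
    (∀ i, (((p : ℕ) ^ K p : ℕ) : ℤ) ∣ y i - x i) →
    Splits ((((a : ℤ) * MvPolynomial.eval y G1 : ℤ)) : ℚ_[(p : ℕ)])
      ((((b : ℤ) * MvPolynomial.eval y G2 : ℤ)) : ℚ_[(p : ℕ)]) ∧
    ∀ μ : ℚ_[(p : ℕ)], ‖μ * ((p : ℕ) : ℚ_[(p : ℕ)]) ^ k p - 1‖ ≤ ((p : ℕ) : ℝ) ^ (-(K p : ℤ)) →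
        (fun i => μ * (y i : ℚ_[(p : ℕ)])) ∈ Ω p

theorem primes_le (z : ℕ) : {p : Nat.Primes | (p : ℕ) ≤ z}.Finite :=
  (Set.finite_Iic z).preimage (Subtype.val_injective.injOn)

/-- The rational point from the value of `t`. -/
theorem glob_of_t (hq : S_QAPP) {d1 d2 : ℕ} (G1 G2 : MvPolynomial (Fin (n + 1)) ℤ)
    (hG1 : G1.IsHomogeneous (2 * d1)) (hG2 : G2.IsHomogeneous (2 * d2))
    (Ωr : Set (Fin (n + 1) → ℝ)) (Ω : ∀ p : Nat.Primes, Set (Fin (n + 1) → ℚ_[(p : ℕ)]))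
    (K k : Nat.Primes → ℕ) (z : ℕ) (hz : ∀ p : Nat.Primes, z < (p : ℕ) → Ω p = Set.univ)
    (v : Fin (n + 1) → ℤ) (Dn : ℕ) (κ : ℝ) (hDn : 1 ≤ Dn) (hκ : 0 < κ)
    (hv : ∀ y : Fin (n + 1) → ℝ, (∀ i, |y i - (v i : ℝ) / Dn| < κ) → y ∈ Ωr)
    (N0 : ℕ) (hN1 : 1 ≤ N0) (hNK : ∀ p : Nat.Primes, (p : ℕ) ≤ z → (p : ℕ) ^ K p ∣ N0)
    (x : Fin (n + 1) → ℕ) (w : Fin (n + 1) → ℤ) (hw : ∀ i, (N0 : ℤ) ∣ w i - x i) :
    ∃ T0 : ℤ, ∀ (a b : ℕ) (t : ℤ), Typ G1 G2 Ω K k z a b x → T0 ≤ t →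
      MvPolynomial.eval (fun i => w i + t * ((N0 : ℤ) * v i)) G1 ≠ 0 →
      MvPolynomial.eval (fun i => w i + t * ((N0 : ℤ) * v i)) G2 ≠ 0 →
      Splits ((((a : ℤ) * MvPolynomial.eval (fun i => w i + t * ((N0 : ℤ) * v i)) G1 : ℤ)) : ℚ)
        ((((b : ℤ) * MvPolynomial.eval (fun i => w i + t * ((N0 : ℤ) * v i)) G2 : ℤ)) : ℚ) →
      GlobW G1 G2 (a : ℤ) (b : ℤ) Ωr Ω := by
  classical
  set W : ℝ := ∑ i, |(w i : ℝ)| with hW
  set V : ℝ := ∑ i, |(v i : ℝ)| with hV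
  have hWi : ∀ i, |(w i : ℝ)| ≤ W := fun i =>
    single_le_sum (f := fun i => |(w i : ℝ)|) (fun i _ => abs_nonneg _) (mem_univ i)
  have hVi : ∀ i, |(v i : ℝ)| ≤ V := fun i =>
    single_le_sum (f := fun i => |(v i : ℝ)|) (fun i _ => abs_nonneg _) (mem_univ i)
  have hW0 : 0 ≤ W := sum_nonneg fun i _ => abs_nonneg _
  have hV0 : 0 ≤ V := sum_nonneg fun i _ => abs_nonneg _
  obtain ⟨T0, hT0⟩ := exists_int_gt (4 * W / κ + 1)
  refine ⟨T0, ?_⟩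
  intro a b t hT ht h1 h2 hs
  have ht' : 4 * W / κ + 1 < (t : ℝ) := hT0.trans_le (by exact_mod_cast ht)
  have hWκ : 0 ≤ 4 * W / κ := by positivity
  have ht0 : (0 : ℝ) < t := by linarith
  have hDn' : (1 : ℝ) ≤ Dn := by exact_mod_cast hDn
  have hN' : (1 : ℝ) ≤ N0 := by exact_mod_cast hN1
  have hr0 : (0 : ℝ) < Dn * N0 * t := by positivity
  obtain ⟨μ, hμ1, hμ2⟩ := hq (primes_le z).toFinset K k (1 / (Dn * N0 * t))
    (min 1 (κ / (2 * (1 + V)))) (by positivity) (by positivity)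
  have hδ1 := hμ1.trans_le (min_le_left _ _)
  have hδ2 := hμ1.trans_le (min_le_right _ _)
  set δ : ℝ := (μ : ℝ) / (1 / (Dn * N0 * t)) - 1 with hδ
  have hμe : (μ : ℝ) = (1 + δ) / (Dn * N0 * t) := by
    rw [hδ]
    field_simp
    ring
  have hμ0 : μ ≠ 0 := by
    rintro rfl
    rw [hδ] at hδ1
    simp at hδ1
  set y : Fin (n + 1) → ℤ := fun i => w i + t * ((N0 : ℤ) * v i) with hy
  have hyx : ∀ p : Nat.Primes, (p : ℕ) ≤ z → ∀ i, (((p : ℕ) ^ K p : ℕ) : ℤ) ∣ y i - x i := by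
    intro p hp i
    have h1 : (((p : ℕ) ^ K p : ℕ) : ℤ) ∣ (N0 : ℤ) := by exact_mod_cast hNK p hp
    have e : y i - x i = (w i - x i) + N0 * (t * v i) := by rw [hy]; ring
    rw [e]
    exact h1.trans ((hw i).add (dvd_mul_right _ _))
  have hae : ∀ {D : ℕ} (G : MvPolynomial (Fin (n + 1)) ℤ), G.IsHomogeneous (2 * D) →
      MvPolynomial.aeval (fun i => μ * ((y i : ℤ) : ℚ)) G =
        (μ ^ D) ^ 2 * ((MvPolynomial.eval y G : ℤ) : ℚ) := by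
    intro D G hG
    rw [aeval_smul hG, aeval_cast, ← pow_mul, mul_comm D 2]
  refine ⟨fun i => μ * ((y i : ℤ) : ℚ), ?_, ?_, ?_, ?_, ?_⟩
  · apply hv
    intro i
    push_cast
    rw [hμe]
    have e : (1 + δ) / (Dn * N0 * t) * (y i : ℝ) - (v i : ℝ) / Dn =
        (1 + δ) * ((w i : ℝ) / (Dn * N0 * t)) + δ * ((v i : ℝ) / Dn) := by
      rw [hy]
      push_cast
      field_simp
      ring
    rw [e]
    have b1 : |(1 + δ) * ((w i : ℝ) / (Dn * N0 * t))| ≤ 2 * (W / t) := by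
      rw [abs_mul]
      apply mul_le_mul
      · have := abs_add_le 1 δ
        rw [abs_one] at this
        linarith
      · rw [abs_div, abs_of_pos hr0]
        apply div_le_div₀ hW0 (hWi i) ht0
        nlinarith [mul_le_mul hDn' hN' (by norm_num) (by linarith : (0:ℝ) ≤ Dn)]
      · exact abs_nonneg _
      · norm_num
    have b2 : 2 * (W / t) < κ / 2 := by
      have h5 : 4 * W / κ < t := by linarith
      rw [div_lt_iff₀ hκ] at h5
      rw [← mul_div_assoc, div_lt_iff₀ ht0]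
      linarith
    have b3 : |δ * ((v i : ℝ) / Dn)| ≤ κ / 2 := by
      rw [abs_mul, abs_div]
      have h5 : |(v i : ℝ)| / |(Dn : ℝ)| ≤ V := by
        rw [abs_of_pos (by linarith : (0:ℝ) < Dn)]
        refine (div_le_self (abs_nonneg _) hDn').trans (hVi i)
      calc |δ| * (|(v i : ℝ)| / |(Dn : ℝ)|) ≤ κ / (2 * (1 + V)) * V :=
            mul_le_mul hδ2.le h5 (by positivity) (by positivity)
        _ ≤ κ / 2 := by
            rw [div_mul_eq_mul_div, div_le_div_iff₀ (by positivity) (by norm_num)]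
            nlinarith
    calc _ ≤ |(1 + δ) * ((w i : ℝ) / (Dn * N0 * t))| + |δ * ((v i : ℝ) / Dn)| := abs_add_le _ _
      _ < κ := by linarith
  · intro p
    by_cases hp : (p : ℕ) ≤ z
    · have h3 := (hT p hp y (hyx p hp)).2 (μ : ℚ_[(p : ℕ)]) (hμ2 p ((primes_le z).mem_toFinset.2 hp))
      convert h3 using 1
      funext i
      push_cast
      rfl
    · rw [hz p (not_le.1 hp)]
      exact Set.mem_univ _
  · rw [hae G1 hG1]
    exact mul_ne_zero (pow_ne_zero _ (pow_ne_zero _ hμ0)) (by exact_mod_cast h1)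
  · rw [hae G2 hG2]
    exact mul_ne_zero (pow_ne_zero _ (pow_ne_zero _ hμ0)) (by exact_mod_cast h2)
  · rw [hae G1 hG1, hae G2 hG2]
    have h3 := splits_sq (μ ^ d1) (μ ^ d2) (pow_ne_zero _ hμ0) (pow_ne_zero _ hμ0) hs
    push_cast at h3 ⊢
    convert h3 using 1 <;> ring

open Classical in
theorem per_type (hc : S_CORE2) (hl : S_LDEG) (hqa : S_QAPP) {α β γ : ℕ}
    (A B E : MvPolynomial (Fin (n + 1)) ℤ)
    (hA : A.IsHomogeneous α) (hB : B.IsHomogeneous β) (hE : E.IsHomogeneous γ) {d1 d2 : ℕ}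
    (hG1 : (A * E).IsHomogeneous (2 * d1)) (hG2 : (B * E).IsHomogeneous (2 * d2)) (hγ : 1 ≤ γ)
    (Ωr : Set (Fin (n + 1) → ℝ)) (Ω : ∀ p : Nat.Primes, Set (Fin (n + 1) → ℚ_[(p : ℕ)]))
    (v : Fin (n + 1) → ℤ) (hvA : MvPolynomial.eval v A ≠ 0) (hvB : MvPolynomial.eval v B ≠ 0)
    (hvE : MvPolynomial.eval v E ≠ 0)
    (hvpos : 0 < MvPolynomial.eval v (A * E) ∨ 0 < MvPolynomial.eval v (B * E))
    (Dn : ℕ) (κ : ℝ) (hDn : 1 ≤ Dn) (hκ : 0 < κ)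
    (hv : ∀ y : Fin (n + 1) → ℝ, (∀ i, |y i - (v i : ℝ) / Dn| < κ) → y ∈ Ωr) (z2 : ℕ)
    (hz2 : ∀ p : ℕ, p.Prime → z2 ≤ p → ∀ F : ℤ[X],
      F.natDegree ≤ α + β + γ → 1 ≤ (F.map (Int.castRingHom (ZMod p))).natDegree →
      (F.map (Int.castRingHom (ZMod p))).Separable → ∀ σ : ℤ, (σ = 1 ∨ σ = -1) →
        ∃ x : ℕ, x < p ∧ jacobiSym (F.eval (x : ℤ)) p = σ)
    (K k : Nat.Primes → ℕ) (z : ℕ) (h2 : 2 ≤ z) (hz2' : z2 ≤ z) (hDz : α + β + γ ≤ z)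
    (hzΩ : ∀ p : Nat.Primes, z < (p : ℕ) → Ω p = Set.univ)
    (hFv : ∀ p : ℕ, p.Prime → (p : ℤ) ∣ MvPolynomial.eval v (A * B * E) → p ≤ z)
    (N0 : ℕ) (hN1 : 1 ≤ N0) (hNp : ∀ p : ℕ, p.Prime → (p ∣ N0 ↔ p ≤ z))
    (hNK : ∀ p : Nat.Primes, (p : ℕ) ≤ z → (p : ℕ) ^ K p ∣ N0)
    (x : Fin (n + 1) → ℕ) (w : Fin (n + 1) → ℤ) (hw : ∀ i, (N0 : ℤ) ∣ w i - x i) (r0 : ℤ)
    (hr0 : r0 ≠ 0) (a1 b1 : ℤ[X])
    (hab : a1 * lineP (A * B * E) w v + b1 * derivative (lineP (A * B * E) w v) = C r0)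
    (ε' : ℝ) (hε' : 0 < ε') :
    ∃ H0 : ℕ, ∀ H : ℕ, H0 ≤ H → ((((Icc 1 H) ×ˢ (Icc 1 H)).filter (fun y : ℕ × ℕ =>
      Squarefree y.1 ∧ Squarefree y.2 ∧ y.1.Coprime y.2 ∧
      Typ (A * E) (B * E) Ω K k z y.1 y.2 x ∧
      ¬ GlobW (A * E) (B * E) (y.1 : ℤ) (y.2 : ℤ) Ωr Ω ∧
      ∀ p : ℕ, p.Prime → (p : ℤ) ∣ r0 → ¬ p ∣ N0 → ¬ p ∣ y.1 ∧ ¬ p ∣ y.2)).card : ℝ) ≤
        ε' * (H : ℝ) ^ 2 := by
  have hN0 : (N0 : ℤ) ≠ 0 := by exact_mod_cast (by omega : N0 ≠ 0)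
  set P1 := lineP A w (fun i => (N0 : ℤ) * v i) with hP1
  set P2 := lineP B w (fun i => (N0 : ℤ) * v i) with hP2
  set P3 := lineP E w (fun i => (N0 : ℤ) * v i) with hP3
  have hP : P1 * P2 * P3 = lineP (A * B * E) w (fun i => (N0 : ℤ) * v i) := by
    rw [lineP_mul, lineP_mul]
  have hP13 : P1 * P3 = lineP (A * E) w (fun i => (N0 : ℤ) * v i) := (lineP_mul _ _ _ _).symm
  have hP23 : P2 * P3 = lineP (B * E) w (fun i => (N0 : ℤ) * v i) := (lineP_mul _ _ _ _).symm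
  obtain ⟨hd1, hlc1⟩ := line_facts hl A hA w v hvA N0 hN0
  obtain ⟨hd2, hlc2⟩ := line_facts hl B hB w v hvB N0 hN0
  obtain ⟨hd3, hlc3⟩ := line_facts hl E hE w v hvE N0 hN0
  rw [← hP1] at hd1 hlc1
  rw [← hP2] at hd2 hlc2
  rw [← hP3] at hd3 hlc3
  have hP10 : P1 ≠ 0 := by
    intro h
    rw [h, leadingCoeff_zero] at hlc1
    exact mul_ne_zero hvA (pow_ne_zero _ hN0) hlc1.symm
  have hP20 : P2 ≠ 0 := by
    intro h
    rw [h, leadingCoeff_zero] at hlc2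
    exact mul_ne_zero hvB (pow_ne_zero _ hN0) hlc2.symm
  have hP30 : P3 ≠ 0 := by
    intro h
    rw [h, leadingCoeff_zero] at hlc3
    exact mul_ne_zero hvE (pow_ne_zero _ hN0) hlc3.symm
  have hd : (P1 * P2 * P3).natDegree = α + β + γ := by
    rw [natDegree_mul (mul_ne_zero hP10 hP20) hP30, natDegree_mul hP10 hP20, hd1, hd2, hd3]
  have hgood : Good (P1 * P2 * P3) := by
    refine ⟨?_, by rw [hd]; omega⟩
    rw [hP, lineP_comp]
    refine sep_of_comb (Int.castRingHom ℚ) _ a1 b1 _ r0 hab ?_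
    rw [eq_intCast]
    exact_mod_cast mul_ne_zero hN0 hr0
  have hNpos : (0 : ℤ) < N0 := by exact_mod_cast hN1
  have hpos : 0 < (P1 * P3).leadingCoeff ∨ 0 < (P2 * P3).leadingCoeff := by
    rw [leadingCoeff_mul, leadingCoeff_mul, hlc1, hlc2, hlc3]
    rw [map_mul, map_mul] at hvpos
    rcases hvpos with h | h
    · left
      have e : MvPolynomial.eval v A * (N0 : ℤ) ^ α * (MvPolynomial.eval v E * (N0 : ℤ) ^ γ) =
        (MvPolynomial.eval v A * MvPolynomial.eval v E) * ((N0 : ℤ) ^ α * (N0 : ℤ) ^ γ) := by ring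
      rw [e]
      exact mul_pos h (mul_pos (pow_pos hNpos _) (pow_pos hNpos _))
    · right
      have e : MvPolynomial.eval v B * (N0 : ℤ) ^ β * (MvPolynomial.eval v E * (N0 : ℤ) ^ γ) =
        (MvPolynomial.eval v B * MvPolynomial.eval v E) * ((N0 : ℤ) ^ β * (N0 : ℤ) ^ γ) := by ring
      rw [e]
      exact mul_pos h (mul_pos (pow_pos hNpos _) (pow_pos hNpos _))
  obtain ⟨T0, hT0⟩ := glob_of_t hqa (A * E) (B * E) hG1 hG2 Ωr Ω K k z hzΩ v Dn κ hDn hκ hv N0 hN1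
    hNK x w hw
  obtain ⟨z3, hz3⟩ := hc P1 P2 P3 hgood (by rw [hd3]; exact hγ) hpos
  set Q := (range (z3 + 1)).filter (fun p => p.Prime ∧ ¬ p ∣ N0) with hQ
  have hQm : ∀ p, p ∈ Q ↔ p ≤ z3 ∧ p.Prime ∧ ¬ p ∣ N0 := by
    intro p
    rw [hQ, mem_filter, mem_range, Nat.lt_succ_iff]
  obtain ⟨H0, hH0⟩ := hz3 (N0 * ∏ p ∈ Q, p)
    (Nat.mul_pos hN1 (Finset.prod_pos fun p hp => ((hQm p).1 hp).2.1.pos))
    (fun p hp hpz => by
      by_cases h : p ∣ N0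
      · exact h.mul_right _
      · exact (dvd_prod_of_mem _ ((hQm p).2 ⟨hpz, hp, h⟩)).mul_left _) T0 ε' hε'
  refine ⟨H0, fun H hH => le_trans ?_ (hH0 H hH)⟩
  refine Nat.cast_le.2 (card_le_card ?_)
  intro y hy
  rw [mem_filter] at hy ⊢
  obtain ⟨hyI, hsq1, hsq2, hcop, hyT, hyG, hyr⟩ := hy
  refine ⟨hyI, hsq1, hsq2, hcop, ?_⟩
  -- residues
  have hs : ∀ q : ℕ, ∃ s : ℕ, q ∈ Q →
      (q ∣ y.1 → jacobiSym ((P2 * P3).eval (s : ℤ)) q = jacobiSym y.2 q) ∧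
      (q ∣ y.2 → jacobiSym ((P1 * P3).eval (s : ℤ)) q = jacobiSym y.1 q) ∧
      (¬ q ∣ y.1 → ¬ q ∣ y.2 → ¬ (q : ℤ) ∣ (P1 * P2 * P3).eval (s : ℤ)) := by
    intro q
    by_cases hq : q ∈ Q
    · obtain ⟨hqz, hqp, hqN⟩ := (hQm q).1 hq
      have hqz' : z < q := by
        by_contra h
        exact hqN ((hNp q hqp).2 (by omega))
      have hvl : ∀ (G : MvPolynomial (Fin (n + 1)) ℤ) (j : ℕ), G ∣ A * B * E →
          ¬ (q : ℤ) ∣ MvPolynomial.eval v G * (N0 : ℤ) ^ j := by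
        intro G j hG h
        rcases Int.Prime.dvd_mul' hqp h with h | h
        · obtain ⟨G', hG'⟩ := hG
          have h6 : (q : ℤ) ∣ MvPolynomial.eval v (A * B * E) := by
            rw [hG', map_mul]
            exact h.mul_right _
          exact absurd (hFv q hqp h6) (by omega)
        · have h5 := Int.Prime.dvd_pow' hqp h
          exact hqN (by exact_mod_cast h5)
      obtain ⟨s, hs⟩ := exists_s hz2 q hqp (by omega) (by omega) P1 P2 P3 hd1 hd2 hd3 hγ rfl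
        (by rw [hlc1]; exact hvl A _ ⟨B * E, by ring⟩)
        (by rw [hlc2]; exact hvl B _ ⟨A * E, by ring⟩)
        (by rw [hlc3]; exact hvl E _ ⟨A * B, by ring⟩) y.1 y.2 hcop
        (by
          intro hqa
          rw [hP, lineP_comp]
          haveI := Fact.mk hqp
          refine sep_of_comb (Int.castRingHom (ZMod q)) _ a1 b1 _ r0 hab ?_
          rw [eq_intCast, Ne, ZMod.intCast_zmod_eq_zero_iff_dvd]
          intro h
          rcases Int.Prime.dvd_mul' hqp h with h | h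
          · exact hqN (by exact_mod_cast h)
          · obtain ⟨g1, g2⟩ := hyr q hqp h hqN
            rcases hqa with h | h
            · exact g1 h
            · exact g2 h)
      exact ⟨s, fun _ => hs⟩
    · exact ⟨0, fun h => absurd h hq⟩
  choose s hs using hs
  obtain ⟨t0, ht0⟩ := crt Q (fun q => q) s (fun q hq => ((hQm q).1 hq).2.1.ne_zero)
    (fun p hp q hq hpq => (Nat.coprime_primes ((hQm p).1 hp).2.1 ((hQm q).1 hq).2.1).2 hpq)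
  refine ⟨t0, ?_, ?_⟩
  · intro p hpF hpN t htN hPt
    have hp := hpF.out
    by_cases hpN0 : p ∣ N0
    · have hpz := (hNp p hp).1 hpN0
      rw [hP13, hP23, lineP_eval, lineP_eval]
      refine (hyT ⟨p, hp⟩ hpz _ fun i => ?_).1
      have h1 : (((p : ℕ) ^ K ⟨p, hp⟩ : ℕ) : ℤ) ∣ (N0 : ℤ) := by exact_mod_cast hNK ⟨p, hp⟩ hpz
      have e : w i + t * ((N0 : ℤ) * v i) - x i = (w i - x i) + N0 * (t * v i) := by ring
      rw [e]
      exact h1.trans ((hw i).add (dvd_mul_right _ _))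
    · have hpQ : p ∈ Q := by
        rcases (Nat.Prime.dvd_mul hp).1 hpN with h | h
        · exact absurd h hpN0
        · obtain ⟨q, hq, hpq⟩ := (Prime.dvd_finset_prod_iff hp.prime _).1 h
          rwa [(Nat.prime_dvd_prime_iff_eq hp ((hQm q).1 hq).2.1).1 hpq]
      have hp2 : p ≠ 2 := by
        rintro rfl
        exact hpN0 ((hNp 2 hp).2 h2)
      refine splits_odd p hp2 P1 P2 P3 y.1 y.2 hcop (s p) t ?_ (hs p hpQ).1 (hs p hpQ).2.1
        (hs p hpQ).2.2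
      have h1 : (p : ℤ) ∣ t - t0 := by
        refine dvd_trans ?_ htN
        exact_mod_cast (dvd_prod_of_mem (fun p => p) hpQ).mul_left N0
      have h3 : (p : ℤ) ∣ (t0 : ℤ) - s p := by
        have h4 := (Nat.modEq_iff_dvd.1 (ht0 p hpQ).symm)
        exact h4
      have e : t - (s p : ℤ) = (t - t0) + (t0 - s p) := by ring
      rw [e]
      exact h1.add h3
  · rintro ⟨t, -, htT, hPt, hspl⟩
    apply hyG
    rw [eval_mul, eval_mul] at hPt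
    have hPt3 : P3.eval t ≠ 0 := right_ne_zero_of_mul hPt
    have hPt12 := left_ne_zero_of_mul hPt
    have hPt1 : P1.eval t ≠ 0 := left_ne_zero_of_mul hPt12
    have hPt2 : P2.eval t ≠ 0 := right_ne_zero_of_mul hPt12
    have h13 : (P1 * P3).eval t ≠ 0 := by
      rw [eval_mul]
      exact mul_ne_zero hPt1 hPt3
    have h23 : (P2 * P3).eval t ≠ 0 := by
      rw [eval_mul]
      exact mul_ne_zero hPt2 hPt3
    rw [hP13, lineP_eval] at h13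
    rw [hP23, lineP_eval] at h23
    rw [hP13, hP23, lineP_eval, lineP_eval] at hspl
    exact hT0 y.1 y.2 t hyT htT h13 h23 hspl

/-- Chinese remainder theorem. -/
theorem crt' {ι : Type} (S : Finset ι) (m t : ι → ℕ) (hm : ∀ p ∈ S, m p ≠ 0)
    (hc : ∀ p ∈ S, ∀ q ∈ S, p ≠ q → Nat.Coprime (m p) (m q)) :
    ∃ k : ℕ, ∀ p ∈ S, k ≡ t p [MOD m p] := by
  obtain ⟨k, hk⟩ := Nat.chineseRemainderOfFinset t m S hm
    (fun p hp q hq hpq => hc p hp q hq hpq)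
  exact ⟨k, hk⟩

open Classical in
theorem card_mult2 (S : Finset ℕ) (H : ℕ) :
    ((((Icc 1 H) ×ˢ (Icc 1 H)).filter (fun y : ℕ × ℕ =>
      ∃ p ∈ S, p ∣ y.1 ∨ p ∣ y.2)).card : ℝ) ≤ 2 * (∑ p ∈ S, 1 / (p : ℝ)) * (H : ℝ) ^ 2 := by
  have hsub : (((Icc 1 H) ×ˢ (Icc 1 H)).filter (fun y : ℕ × ℕ => ∃ p ∈ S, p ∣ y.1 ∨ p ∣ y.2)) ⊆
      (((Icc 1 H).filter (fun a : ℕ => ∃ p ∈ S, p ∣ a)) ×ˢ (Icc 1 H)) ∪
      ((Icc 1 H) ×ˢ ((Icc 1 H).filter (fun a : ℕ => ∃ p ∈ S, p ∣ a))) := by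
    intro y hy
    rw [mem_filter, mem_product] at hy
    obtain ⟨⟨h1, h2⟩, p, hp, h | h⟩ := hy
    · exact mem_union_left _ (mem_product.2 ⟨mem_filter.2 ⟨h1, p, hp, h⟩, h2⟩)
    · exact mem_union_right _ (mem_product.2 ⟨h1, mem_filter.2 ⟨h2, p, hp, h⟩⟩)
  have h1 := (card_le_card hsub).trans (card_union_le _ _)
  rw [card_product, card_product, Nat.card_Icc, Nat.add_sub_cancel] at h1
  have h2 := card_mult S H
  have h3 : ((((Icc 1 H) ×ˢ (Icc 1 H)).filter (fun y : ℕ × ℕ =>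
      ∃ p ∈ S, p ∣ y.1 ∨ p ∣ y.2)).card : ℝ) ≤
      (((Icc 1 H).filter (fun a : ℕ => ∃ p ∈ S, p ∣ a)).card : ℝ) * H +
      H * (((Icc 1 H).filter (fun a : ℕ => ∃ p ∈ S, p ∣ a)).card : ℝ) := by
    exact_mod_cast h1
  have hH : (0 : ℝ) ≤ H := Nat.cast_nonneg _
  nlinarith [mul_le_mul_of_nonneg_right h2 hH]

theorem count2 {ι κ : Type} [DecidableEq ι] [DecidableEq κ] (T : Finset ι) (Bad : Finset κ)
    (D E : ι → Finset κ) (e : ℝ) (hsub : ∀ a ∈ Bad, ∃ x ∈ T, a ∈ D x ∨ a ∈ E x)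
    (hD : ∀ x ∈ T, ((D x).card : ℝ) ≤ 2 * e) (hE : ∀ x ∈ T, ((E x).card : ℝ) ≤ e) :
    (Bad.card : ℝ) ≤ T.card * (3 * e) := by
  have h1 : Bad ⊆ T.biUnion (fun x => D x ∪ E x) := by
    intro a ha
    obtain ⟨x, hx, h⟩ := hsub a ha
    exact mem_biUnion.2 ⟨x, hx, mem_union.2 h⟩
  have h2 := (card_le_card h1).trans card_biUnion_le
  calc (Bad.card : ℝ) ≤ ((∑ x ∈ T, (D x ∪ E x).card : ℕ) : ℝ) := by exact_mod_cast h2
    _ ≤ ∑ x ∈ T, (3 * e) := by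
      push_cast
      refine sum_le_sum fun x hx => ?_
      have h3 : ((D x ∪ E x).card : ℝ) ≤ (D x).card + (E x).card := by
        exact_mod_cast card_union_le _ _
      linarith [hD x hx, hE x hx]
    _ = _ := by
      rw [sum_const, nsmul_eq_mul]

theorem t2w_ (hc : S_CORE2) (he : S_EXISTU) (hl : S_LDEG) (hd : S_DISC) (hch : S_CHOOSE)
    (ht : S_TYPEW) (hr : S_REALTW) (hqa : S_QAPP) : S_T2W := by
  classical
  intro n α β γ A B E hA hB hE hαγ hβγ hγ hsq Ωr Ω hΩr hΩ hfin ε hε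
  obtain ⟨d1, hd1⟩ := hαγ
  obtain ⟨d2, hd2⟩ := hβγ
  have hG1 : (A * E).IsHomogeneous (2 * d1) := by
    have h := hA.mul hE
    rwa [show α + γ = 2 * d1 by omega] at h
  have hG2 : (B * E).IsHomogeneous (2 * d2) := by
    have h := hB.mul hE
    rwa [show β + γ = 2 * d2 by omega] at h
  by_cases hV : ∃ a b : ℕ, 0 < a ∧ 0 < b ∧ HasPW (A * E) (B * E) (a : ℤ) (b : ℤ) Ωr
  swap
  · refine ⟨0, fun H _ => ?_⟩
    have h0 : (((Icc 1 H) ×ˢ (Icc 1 H)).filter (fun x : ℕ × ℕ => Squarefree x.1 ∧ Squarefree x.2 ∧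
      x.1.Coprime x.2 ∧ HasPW (A * E) (B * E) (x.1 : ℤ) (x.2 : ℤ) Ωr ∧
      (∀ p : Nat.Primes, HasPW (A * E) (B * E) (x.1 : ℤ) (x.2 : ℤ) (Ω p)) ∧
      ¬ GlobW (A * E) (B * E) (x.1 : ℤ) (x.2 : ℤ) Ωr Ω)) = ∅ := by
      rw [filter_eq_empty_iff]
      intro a ha h
      rw [mem_product, mem_Icc, mem_Icc] at ha
      exact hV ⟨a.1, a.2, ha.1.1, ha.2.1, h.2.2.2.1⟩
    have h1 : (0 : ℝ) ≤ ε * (H : ℝ) ^ 2 := by positivity
    convert h1
    rw [Nat.cast_eq_zero, card_eq_zero]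
    convert h0
  obtain ⟨a0, b0, ha0, hb0, hP0⟩ := hV
  obtain ⟨v, Dn, κ, hDn, hκ, hvG1, hvG2, hvpos, hv⟩ := hr n d1 d2 (A * E) (B * E) hG1 hG2 a0 b0
    (by exact_mod_cast ha0) (by exact_mod_cast hb0) Ωr hΩr hP0
  have hvA : MvPolynomial.eval v A ≠ 0 := by
    rw [map_mul] at hvG1
    exact left_ne_zero_of_mul hvG1
  have hvE : MvPolynomial.eval v E ≠ 0 := by
    rw [map_mul] at hvG1
    exact right_ne_zero_of_mul hvG1
  have hvB : MvPolynomial.eval v B ≠ 0 := by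
    rw [map_mul] at hvG2
    exact left_ne_zero_of_mul hvG2
  have hvF : MvPolynomial.eval v (A * B * E) ≠ 0 := by
    rw [map_mul, map_mul]
    exact mul_ne_zero (mul_ne_zero hvA hvB) hvE
  have hF : (A * B * E).IsHomogeneous (α + β + γ) := (hA.mul hB).mul hE
  obtain ⟨r, hr0, hrw⟩ := hd n _ (A * B * E) hF hsq v hvF
  obtain ⟨z1, hz1⟩ := hch n r hr0
  obtain ⟨z2, hz2⟩ := he (α + β + γ)
  have hK := fun p : Nat.Primes => ht n d1 d2 _ _ hG1 hG2 (p : ℕ) (Ω p) (hΩ p)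
  choose K k hK using hK
  obtain ⟨z4, hz4⟩ : ∃ z4 : ℕ, ∀ p : Nat.Primes, z4 < (p : ℕ) → Ω p = Set.univ := by
    refine ⟨hfin.toFinset.sup (fun p => (p : ℕ)), fun p hp => ?_⟩
    by_contra h
    have h1 := le_sup (f := fun p : Nat.Primes => (p : ℕ)) (hfin.mem_toFinset.2 h)
    exact absurd h1 (not_le.2 hp)
  obtain ⟨z, hza, hzb, hzc, hzd, hze, hzf⟩ : ∃ z : ℕ, 2 ≤ z ∧ z1 ≤ z ∧ z2 ≤ z ∧ α + β + γ ≤ z ∧
      (MvPolynomial.eval v (A * B * E)).natAbs ≤ z ∧ z4 ≤ z :=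
    ⟨2 + z1 + z2 + (α + β + γ) + (MvPolynomial.eval v (A * B * E)).natAbs + z4, by omega, by omega,
      by omega, by omega, by omega, by omega⟩
  obtain ⟨Ps, hPs⟩ : ∃ Ps : Finset Nat.Primes, Ps = (primes_le z).toFinset := ⟨_, rfl⟩
  have hPm : ∀ p : Nat.Primes, p ∈ Ps ↔ (p : ℕ) ≤ z := by
    intro p
    rw [hPs, Set.Finite.mem_toFinset]
    rfl
  set N0 := ∏ p ∈ Ps, (p : ℕ) ^ (K p + 1) with hN0
  have hN1 : 0 < N0 := by
    rw [hN0]
    exact Finset.prod_pos fun (p : Nat.Primes) hp => pow_pos p.2.pos _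
  have hNK : ∀ p : Nat.Primes, (p : ℕ) ≤ z → (p : ℕ) ^ K p ∣ N0 := fun p hpz =>
    (pow_dvd_pow (p : ℕ) (Nat.le_succ _)).trans
      (dvd_prod_of_mem (fun p : Nat.Primes => (p : ℕ) ^ (K p + 1)) ((hPm p).2 hpz))
  have hNp : ∀ p : ℕ, p.Prime → (p ∣ N0 ↔ p ≤ z) := by
    intro p hp
    constructor
    · intro h
      obtain ⟨q, hq, hpq⟩ := (Prime.dvd_finset_prod_iff hp.prime _).1 h
      have h1 := hp.dvd_of_dvd_pow hpq
      rw [(Nat.prime_dvd_prime_iff_eq hp q.2).1 h1]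
      exact (hPm q).1 hq
    · intro hpz
      exact (dvd_pow_self p (Nat.succ_ne_zero (K ⟨p, hp⟩))).trans
        (dvd_prod_of_mem (fun p : Nat.Primes => (p : ℕ) ^ (K p + 1)) ((hPm ⟨p, hp⟩).2 hpz))
  -- every pair has a type
  set T : Finset (Fin (n + 1) → ℕ) := Fintype.piFinset (fun _ => range N0) with hT
  have hTne : T.Nonempty := by
    rw [hT, Fintype.piFinset_nonempty]
    exact fun _ => ⟨0, mem_range.2 hN1⟩
  have hTc : (0 : ℝ) < T.card := by exact_mod_cast hTne.card_pos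
  have htyp : ∀ a b : ℕ, Squarefree a → Squarefree b →
      (∀ p : Nat.Primes, HasPW (A * E) (B * E) (a : ℤ) (b : ℤ) (Ω p)) →
      ∃ x ∈ T, Typ (A * E) (B * E) Ω K k z a b x := by
    intro a b ha hb hloc
    have hx := fun p : Nat.Primes => hK p (a : ℤ) (b : ℤ) (Int.squarefree_natCast.2 ha)
      (Int.squarefree_natCast.2 hb) (hloc p)
    choose x0 hx0 using hx
    have hk : ∀ i : Fin (n + 1), ∃ k : ℕ, ∀ p ∈ Ps, k ≡ x0 p i [MOD (p : ℕ) ^ K p] := fun i =>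
      crt' Ps (fun p => (p : ℕ) ^ K p) (fun p => x0 p i)
        (fun p hp => (pow_pos p.2.pos _).ne')
        (fun p hp q hq hpq => Nat.Coprime.pow _ _
          ((Nat.coprime_primes p.2 q.2).2 (fun h => hpq (Subtype.ext h))))
    choose k' hk' using hk
    refine ⟨fun i => k' i % N0, ?_, ?_⟩
    · rw [hT, Fintype.mem_piFinset]
      exact fun i => mem_range.2 (Nat.mod_lt _ hN1)
    · intro p hpz y hy
      have h5 := (hx0 p).2 y fun i => by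
        have h1 : k' i % N0 ≡ x0 p i [MOD (p : ℕ) ^ K p] :=
          (Nat.ModEq.of_dvd (hNK p hpz) (Nat.mod_modEq (k' i) N0)).trans
            (hk' i p ((hPm p).2 hpz))
        have h2 := Nat.modEq_iff_dvd.1 h1.symm
        have e : y i - (x0 p i : ℤ) = (y i - ((k' i % N0 : ℕ) : ℤ)) +
          (((k' i % N0 : ℕ) : ℤ) - x0 p i) := by ring
        rw [e]
        exact (hy i).add h2
      exact ⟨h5.2.2.1, h5.2.2.2⟩
  set ε' := ε / (3 * T.card) with hε'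
  have hε'0 : 0 < ε' := by positivity
  have hmain : ∀ x : Fin (n + 1) → ℕ, ∃ (w : Fin (n + 1) → ℤ) (H0 : ℕ),
      (∑ p ∈ (MvPolynomial.eval w r).natAbs.primeFactors.filter (fun p => ¬ p ∣ N0),
        1 / (p : ℝ) ≤ ε') ∧ MvPolynomial.eval w r ≠ 0 ∧
      ∀ H : ℕ, H0 ≤ H → ((((Icc 1 H) ×ˢ (Icc 1 H)).filter (fun y : ℕ × ℕ =>
        Squarefree y.1 ∧ Squarefree y.2 ∧ y.1.Coprime y.2 ∧
        Typ (A * E) (B * E) Ω K k z y.1 y.2 x ∧
        ¬ GlobW (A * E) (B * E) (y.1 : ℤ) (y.2 : ℤ) Ωr Ω ∧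
        ∀ p : ℕ, p.Prime → (p : ℤ) ∣ MvPolynomial.eval w r → ¬ p ∣ N0 →
          ¬ p ∣ y.1 ∧ ¬ p ∣ y.2)).card : ℝ) ≤ ε' * (H : ℝ) ^ 2 := by
    intro x
    obtain ⟨w, hw1, hw2, hw3⟩ := hz1 N0 hN1 (fun p hp hpz => (hNp p hp).2 (hpz.trans hzb))
      (fun i => (x i : ℤ)) ε' hε'0
    obtain ⟨a1, b1, hab⟩ := hrw w
    obtain ⟨H0, hH0⟩ := per_type hc hl hqa A B E hA hB hE hG1 hG2 hγ Ωr Ω v hvA hvB hvE hvpos Dn κ
      hDn hκ hv z2 hz2 K k z hza hzc hzd (fun p hp => hz4 p (lt_of_le_of_lt hzf hp))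
      (fun p hp hpv => by
        have h1 : p ∣ (MvPolynomial.eval v (A * B * E)).natAbs := Int.natCast_dvd.1 hpv
        exact (Nat.le_of_dvd (Int.natAbs_pos.2 hvF) h1).trans hze)
      N0 hN1 hNp hNK x w hw1 _ hw2 a1 b1 hab ε' hε'0
    refine ⟨w, H0, hw3, hw2, fun H hH => ?_⟩
    convert hH0 H hH
  choose w H0 hw1 hw2 hw3 using hmain
  refine ⟨T.sup H0, fun H hH => ?_⟩
  have key := count2 T (((Icc 1 H) ×ˢ (Icc 1 H)).filter (fun x : ℕ × ℕ => Squarefree x.1 ∧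
      Squarefree x.2 ∧ x.1.Coprime x.2 ∧ HasPW (A * E) (B * E) (x.1 : ℤ) (x.2 : ℤ) Ωr ∧
      (∀ p : Nat.Primes, HasPW (A * E) (B * E) (x.1 : ℤ) (x.2 : ℤ) (Ω p)) ∧
      ¬ GlobW (A * E) (B * E) (x.1 : ℤ) (x.2 : ℤ) Ωr Ω))
    (fun x => ((Icc 1 H) ×ˢ (Icc 1 H)).filter (fun y : ℕ × ℕ => ∃ p ∈ (MvPolynomial.eval (w x)
      r).natAbs.primeFactors.filter (fun p => ¬ p ∣ N0), p ∣ y.1 ∨ p ∣ y.2))
    (fun x => ((Icc 1 H) ×ˢ (Icc 1 H)).filter (fun y : ℕ × ℕ =>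
        Squarefree y.1 ∧ Squarefree y.2 ∧ y.1.Coprime y.2 ∧
        Typ (A * E) (B * E) Ω K k z y.1 y.2 x ∧
        ¬ GlobW (A * E) (B * E) (y.1 : ℤ) (y.2 : ℤ) Ωr Ω ∧
        ∀ p : ℕ, p.Prime → (p : ℤ) ∣ MvPolynomial.eval (w x) r → ¬ p ∣ N0 →
          ¬ p ∣ y.1 ∧ ¬ p ∣ y.2))
    (ε' * (H : ℝ) ^ 2) ?_ ?_ ?_
  · have e : (T.card : ℝ) * (3 * (ε' * (H : ℝ) ^ 2)) = ε * (H : ℝ) ^ 2 := by
      rw [hε']
      field_simp
    rw [e] at key
    convert key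
  · intro a ha
    rw [mem_filter] at ha
    obtain ⟨haI, hsq1, hsq2, hcop, -, hloc, hno⟩ := ha
    obtain ⟨x, hxT, hx⟩ := htyp a.1 a.2 hsq1 hsq2 hloc
    refine ⟨x, hxT, ?_⟩
    by_cases hdv : ∃ p ∈ (MvPolynomial.eval (w x) r).natAbs.primeFactors.filter
        (fun p => ¬ p ∣ N0), p ∣ a.1 ∨ p ∣ a.2
    · exact Or.inl (mem_filter.2 ⟨haI, hdv⟩)
    · refine Or.inr (mem_filter.2 ⟨haI, hsq1, hsq2, hcop, hx, hno, ?_⟩)
      intro p hp hpr hpN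
      have h6 : p ∈ (MvPolynomial.eval (w x) r).natAbs.primeFactors.filter (fun p => ¬ p ∣ N0) :=
        mem_filter.2 ⟨Nat.mem_primeFactors.2 ⟨hp, Int.natCast_dvd.1 hpr,
          Int.natAbs_ne_zero.2 (hw2 x)⟩, hpN⟩
      exact ⟨fun h => hdv ⟨p, h6, Or.inl h⟩, fun h => hdv ⟨p, h6, Or.inr h⟩⟩
  · intro x hx
    refine (card_mult2 _ H).trans ?_
    have h7 := hw1 x
    have h8 : (0 : ℝ) ≤ (H : ℝ) ^ 2 := by positivity
    nlinarith [mul_le_mul_of_nonneg_right h7 h8]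
  · intro x hx
    exact hw3 x H ((le_sup hx).trans hH)

end Pool.Agent.W125.HB.T2W
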